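import Pool.Agent.U808.CG.Num

/-!
# Hilbert functions of graded Gorenstein algebras

Hilbert functions of the quotients of a graded algebra by homogeneous ideals, the effect of a
nonzerodivisor, and the symmetry for algebras with a one-dimensional socle.
-/

set_option autoImplicit false

open DirectSum Module

namespace Pool.Agent.U808.CG

section linear

variable {k V W : Type*} [Field k] [AddCommGroup V] [Module k V] [AddCommGroup W] [Module k W]

theorem finrank_map_add (A : Submodule k V) [FiniteDimensional k A] (f : V →ₗ[k] W) :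
    finrank k (A.map f) + finrank k (A ⊓ LinearMap.ker f : Submodule k V) = finrank k A := by
  have h := LinearMap.finrank_range_add_finrank_ker (f.domRestrict A)
  rw [LinearMap.range_domRestrict] at h
  have h2 : LinearMap.ker (f.domRestrict A) = (LinearMap.ker f).comap A.subtype := by
    ext x
    simp [LinearMap.domRestrict_apply]
  rw [h2, ← Submodule.finrank_map_subtype_eq, Submodule.map_comap_subtype] at h
  exact h

end linear

variable {k S : Type*} [Field k] [CommRing S] [Algebra k S] (𝒜 : ℕ → Submodule k S)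

/-- the dimension of the degree `n` part of `S / I` -/
noncomputable def hf (I : Ideal S) (n : ℕ) : ℕ :=
  finrank k ((𝒜 n).map (Ideal.Quotient.mkₐ k I).toLinearMap)

theorem mem_ker_mk (I : Ideal S) (x : S) :
    x ∈ LinearMap.ker (Ideal.Quotient.mkₐ k I).toLinearMap ↔ x ∈ I := by
  rw [LinearMap.mem_ker]
  exact Ideal.Quotient.eq_zero_iff_mem

theorem hf_eq_zero {I : Ideal S} {n : ℕ} (h : ∀ x ∈ 𝒜 n, x ∈ I) : hf 𝒜 I n = 0 := by
  unfold hf
  have : (𝒜 n).map (Ideal.Quotient.mkₐ k I).toLinearMap = ⊥ := by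
    rw [eq_bot_iff]
    rintro _ ⟨x, hx, rfl⟩
    rw [Submodule.mem_bot, ← LinearMap.mem_ker, mem_ker_mk]
    exact h x hx
  rw [this, finrank_bot]

theorem hf_bot (n : ℕ) [FiniteDimensional k (𝒜 n)] : hf 𝒜 (⊥ : Ideal S) n = finrank k (𝒜 n) := by
  have h := finrank_map_add (𝒜 n) (Ideal.Quotient.mkₐ k (⊥ : Ideal S)).toLinearMap
  have h2 : (𝒜 n ⊓ LinearMap.ker (Ideal.Quotient.mkₐ k (⊥ : Ideal S)).toLinearMap :
      Submodule k S) = ⊥ := by
    rw [eq_bot_iff]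
    rintro x ⟨_, hx⟩
    rw [SetLike.mem_coe, mem_ker_mk] at hx
    exact hx
  rw [h2, finrank_bot, add_zero] at h
  exact h

variable [GradedAlgebra 𝒜]

/-- homogeneous components of elements of the ideal `I + (θ)` -/
theorem mem_sup_of_le {I : Ideal S} (hI : I.IsHomogeneous 𝒜) {e : ℕ} {θ : S} (hθ : θ ∈ 𝒜 e)
    {n : ℕ} {x : S} (hx : x ∈ 𝒜 (n + e)) (hJ : x ∈ I ⊔ Ideal.span {θ}) :
    ∃ y ∈ 𝒜 n, x - θ * y ∈ I := by
  obtain ⟨i, hi, z, hz, rfl⟩ := Submodule.mem_sup.mp hJ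
  obtain ⟨y, rfl⟩ := Ideal.mem_span_singleton'.mp hz
  refine ⟨(decompose 𝒜 y n : S), (decompose 𝒜 y n).2, ?_⟩
  have h1 := decompose_of_mem_same 𝒜 hx
  rw [decompose_add, DirectSum.add_apply, Submodule.coe_add, mul_comm y θ,
    coe_decompose_mul_of_left_mem_of_le 𝒜 hθ (Nat.le_add_left e n), Nat.add_sub_cancel] at h1
  rw [mul_comm y θ, ← h1, add_sub_cancel_right]
  exact hI _ hi

theorem mem_sup_of_lt {I : Ideal S} (hI : I.IsHomogeneous 𝒜) {e : ℕ} {θ : S} (hθ : θ ∈ 𝒜 e)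
    {n : ℕ} (hn : n < e) {x : S} (hx : x ∈ 𝒜 n) (hJ : x ∈ I ⊔ Ideal.span {θ}) : x ∈ I := by
  obtain ⟨i, hi, z, hz, rfl⟩ := Submodule.mem_sup.mp hJ
  obtain ⟨y, rfl⟩ := Ideal.mem_span_singleton'.mp hz
  have h1 := decompose_of_mem_same 𝒜 hx
  rw [decompose_add, DirectSum.add_apply, Submodule.coe_add, mul_comm y θ,
    coe_decompose_mul_of_left_mem_of_not_le 𝒜 hθ (by omega), add_zero] at h1
  rw [mul_comm y θ, ← h1]
  exact hI _ hi

variable [∀ n, FiniteDimensional k (𝒜 n)]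

theorem hf_step {I K : Ideal S} (hI : I.IsHomogeneous 𝒜) {e : ℕ} {θ : S} (hθ : θ ∈ 𝒜 e)
    (hK : ∀ x, θ * x ∈ I ↔ x ∈ K) (n : ℕ) :
    hf 𝒜 (I ⊔ Ideal.span {θ}) (n + e) + hf 𝒜 K n = hf 𝒜 I (n + e) := by
  set J : Ideal S := I ⊔ Ideal.span {θ} with hJ
  set q := (Ideal.Quotient.mkₐ k I).toLinearMap with hq
  set q' := (Ideal.Quotient.mkₐ k J).toLinearMap with hq'
  set q'' := (Ideal.Quotient.mkₐ k K).toLinearMap with hq''
  set g := q ∘ₗ (LinearMap.mulLeft k θ) with hg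
  have h1 := finrank_map_add (𝒜 (n + e)) q
  have h2 := finrank_map_add (𝒜 (n + e)) q'
  have h3 := finrank_map_add (𝒜 n) g
  have h4 := finrank_map_add (𝒜 n) q''
  have h5 : (𝒜 n ⊓ LinearMap.ker g : Submodule k S) = 𝒜 n ⊓ LinearMap.ker q'' := by
    ext x
    rw [Submodule.mem_inf, Submodule.mem_inf]
    apply and_congr_right
    intro _
    rw [hq'', mem_ker_mk]
    have : x ∈ LinearMap.ker g ↔ θ * x ∈ I := by
      rw [hg, LinearMap.mem_ker, LinearMap.comp_apply, LinearMap.mulLeft_apply,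
        ← LinearMap.mem_ker, mem_ker_mk]
    rw [this]
    exact hK x
  have : FiniteDimensional k (𝒜 (n + e) ⊓ LinearMap.ker q' : Submodule k S) :=
    Submodule.finiteDimensional_of_le inf_le_left
  have h7 := finrank_map_add (𝒜 (n + e) ⊓ LinearMap.ker q' : Submodule k S) q
  have h6 : ((𝒜 (n + e) ⊓ LinearMap.ker q' : Submodule k S)).map q = (𝒜 n).map g := by
    ext z
    rw [Submodule.mem_map, Submodule.mem_map]
    constructor
    · rintro ⟨x, ⟨hx1, hx2⟩, rfl⟩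
      rw [hq', SetLike.mem_coe, mem_ker_mk] at hx2
      obtain ⟨y, hy, hxy⟩ := mem_sup_of_le 𝒜 hI hθ hx1 hx2
      refine ⟨y, hy, ?_⟩
      rw [← mem_ker_mk (k := k), LinearMap.mem_ker, map_sub, sub_eq_zero] at hxy
      rw [hg, LinearMap.comp_apply, LinearMap.mulLeft_apply]
      exact hxy.symm
    · rintro ⟨y, hy, rfl⟩
      refine ⟨θ * y, ⟨?_, ?_⟩, rfl⟩
      · have := SetLike.GradedMul.mul_mem hθ hy
        rw [add_comm e n] at this
        exact this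
      · rw [hq', SetLike.mem_coe, mem_ker_mk, hJ]
        exact Ideal.mul_mem_right _ _
          (Ideal.mem_sup_right (Ideal.mem_span_singleton_self θ))
  have h8 : ((𝒜 (n + e) ⊓ LinearMap.ker q') ⊓ LinearMap.ker q : Submodule k S) =
      𝒜 (n + e) ⊓ LinearMap.ker q := by
    ext x
    simp only [Submodule.mem_inf, hq, hq', mem_ker_mk]
    constructor
    · rintro ⟨⟨h, _⟩, h'⟩
      exact ⟨h, h'⟩
    · rintro ⟨h, h'⟩
      exact ⟨⟨h, Ideal.mem_sup_left h'⟩, h'⟩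
  rw [h6, h8] at h7
  rw [h5] at h3
  unfold hf
  rw [← hq, ← hq', ← hq'']
  omega

theorem hf_step_lt {I : Ideal S} (hI : I.IsHomogeneous 𝒜) {e : ℕ} {θ : S} (hθ : θ ∈ 𝒜 e)
    {n : ℕ} (hn : n < e) : hf 𝒜 (I ⊔ Ideal.span {θ}) n = hf 𝒜 I n := by
  have h1 := finrank_map_add (𝒜 n) (Ideal.Quotient.mkₐ k I).toLinearMap
  have h2 := finrank_map_add (𝒜 n) (Ideal.Quotient.mkₐ k (I ⊔ Ideal.span {θ})).toLinearMap
  have h3 : (𝒜 n ⊓ LinearMap.ker (Ideal.Quotient.mkₐ k (I ⊔ Ideal.span {θ})).toLinearMap :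
      Submodule k S) = 𝒜 n ⊓ LinearMap.ker (Ideal.Quotient.mkₐ k I).toLinearMap := by
    ext x
    simp only [Submodule.mem_inf, mem_ker_mk]
    constructor
    · rintro ⟨h, h'⟩
      exact ⟨h, mem_sup_of_lt 𝒜 hI hθ hn h h'⟩
    · rintro ⟨h, h'⟩
      exact ⟨h, Ideal.mem_sup_left h'⟩
  rw [h3] at h2
  unfold hf
  omega

section duality

variable {I : Ideal S} (hI : I.IsHomogeneous 𝒜) (hN : ∃ N, ∀ n, N ≤ n → ∀ x ∈ 𝒜 n, x ∈ I)
  {s : ℕ} {σ : S} (hσ : σ ∈ 𝒜 s)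
  (hsoc : ∀ x, (∀ n, 0 < n → ∀ y ∈ 𝒜 n, y * x ∈ I) → ∃ c : k, x - c • σ ∈ I)

include hI hN hσ hsoc

omit [∀ n, FiniteDimensional k (𝒜 n)] in
theorem pairing {j : ℕ} {x : S} (hx : x ∈ 𝒜 j) (hxI : x ∉ I) :
    j ≤ s ∧ ∃ y ∈ 𝒜 (s - j), ∃ c : k, c ≠ 0 ∧ x * y - c • σ ∈ I := by
  obtain ⟨N, hN⟩ := hN
  set T : Set ℕ := {t | ∃ y ∈ 𝒜 t, x * y ∉ I} with hT
  have hTne : T.Nonempty := ⟨0, 1, SetLike.GradedOne.one_mem, by rwa [mul_one]⟩
  have hTb : BddAbove T := by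
    refine ⟨N, ?_⟩
    rintro t ⟨y, hy, hxy⟩
    by_contra hcon
    exact hxy (hN (j + t) (by omega) _ (SetLike.GradedMul.mul_mem hx hy))
  obtain ⟨y, hy, hxy⟩ := Nat.sSup_mem hTne hTb
  set t := sSup T with ht
  have hz : x * y ∈ 𝒜 (j + t) := SetLike.GradedMul.mul_mem hx hy
  obtain ⟨c, hc⟩ := hsoc (x * y) (by
    intro n hn w hw
    by_contra hcon
    have h1 : t + n ∈ T := by
      refine ⟨y * w, SetLike.GradedMul.mul_mem hy hw, ?_⟩
      rwa [← mul_assoc, mul_comm]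
    have h2 := le_csSup hTb h1
    omega)
  have hc0 : c ≠ 0 := by
    rintro rfl
    rw [zero_smul, sub_zero] at hc
    exact hxy hc
  have hjt : j + t = s := by
    by_contra hne
    have h1 := hI (j + t) hc
    rw [decompose_sub, DirectSum.sub_apply, Submodule.coe_sub, decompose_of_mem_same 𝒜 hz,
      decompose_of_mem_ne 𝒜 ((𝒜 s).smul_mem c hσ) (Ne.symm hne), sub_zero] at h1
    exact hxy h1
  have hts : t = s - j := by omega
  refine ⟨by omega, y, ?_, c, hc0, hc⟩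
  rw [← hts]
  exact hy

omit [∀ n, FiniteDimensional k (𝒜 n)] in
theorem hf_zero {n : ℕ} (hn : s < n) : hf 𝒜 I n = 0 := by
  apply hf_eq_zero
  intro x hx
  by_contra hxI
  have := (pairing 𝒜 hI hN hσ hsoc hx hxI).1
  omega

theorem hf_le (hσI : σ ∉ I) {j : ℕ} : hf 𝒜 I j ≤ hf 𝒜 I (s - j) := by
  have hφ : ∃ φ : Dual k (S ⧸ I), φ (Ideal.Quotient.mkₐ k I σ) ≠ 0 := by
    by_contra hcon
    push Not at hcon
    rw [Module.forall_dual_apply_eq_zero_iff] at hcon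
    exact hσI (Ideal.Quotient.eq_zero_iff_mem.mp hcon)
  obtain ⟨φ, hφ⟩ := hφ
  set W : ℕ → Submodule k (S ⧸ I) :=
    fun n => (𝒜 n).map (Ideal.Quotient.mkₐ k I).toLinearMap with hW
  have : ∀ n, FiniteDimensional k (W n) := fun n => by
    rw [hW]; infer_instance
  let B : W j →ₗ[k] Dual k (W (s - j)) :=
    ((LinearMap.mul k (S ⧸ I)).compr₂ φ).domRestrict₁₂ (W j) (W (s - j))
  have hB : Function.Injective B := by
    rw [← LinearMap.ker_eq_bot, eq_bot_iff]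
    rintro ⟨v, hv⟩ hvB
    obtain ⟨x, hx, rfl⟩ := hv
    rw [Submodule.mem_bot]
    apply Subtype.ext
    change (Ideal.Quotient.mkₐ k I).toLinearMap x = 0
    by_contra hne
    have hxI : x ∉ I := fun h => hne ((mem_ker_mk (k := k) I x).mpr h)
    obtain ⟨_, y, hy, c, hc0, hc⟩ := pairing 𝒜 hI hN hσ hsoc hx hxI
    have h1 := LinearMap.congr_fun (LinearMap.mem_ker.mp hvB)
      ⟨(Ideal.Quotient.mkₐ k I).toLinearMap y, ⟨y, hy, rfl⟩⟩
    have h2 : φ ((Ideal.Quotient.mkₐ k I) x * (Ideal.Quotient.mkₐ k I) y) = 0 := h1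
    have h3 : (Ideal.Quotient.mkₐ k I) (x * y) = (Ideal.Quotient.mkₐ k I) (c • σ) := by
      rw [← sub_eq_zero, ← map_sub]
      exact Ideal.Quotient.eq_zero_iff_mem.mpr hc
    rw [← map_mul, h3, map_smul, map_smul, smul_eq_mul] at h2
    exact (mul_ne_zero hc0 hφ) h2
  have h4 := LinearMap.finrank_le_finrank_of_injective hB
  rw [Subspace.dual_finrank_eq] at h4
  exact h4

theorem hf_symm (hσI : σ ∉ I) {j : ℕ} (hj : j ≤ s) : hf 𝒜 I (s - j) = hf 𝒜 I j := by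
  apply le_antisymm
  · have := hf_le 𝒜 hI hN hσ hsoc hσI (j := s - j)
    rwa [Nat.sub_sub_self hj] at this
  · exact hf_le 𝒜 hI hN hσ hsoc hσI

end duality

end Pool.Agent.U808.CG
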