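import Pool.Agent.U808.CG.Alg

/-!
# Hilbert functions are eventually polynomial

Devissage: if at every point of `Proj S` homogeneous elements of two consecutive degrees do not
vanish, then the Hilbert functions of the quotients of `S` by homogeneous ideals are eventually
polynomial.
-/

set_option autoImplicit false

open DirectSum Module Polynomial

namespace Pool.Agent.U808.CG

/-- eventually given by a polynomial -/
def EvPoly (f : ℕ → ℚ) : Prop := ∃ (P : ℚ[X]) (N : ℕ), ∀ n, N ≤ n → f n = P.eval (n : ℚ)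

theorem EvPoly.add {f g : ℕ → ℚ} (hf : EvPoly f) (hg : EvPoly g) :
    EvPoly (fun n => f n + g n) := by
  obtain ⟨P, N, h⟩ := hf
  obtain ⟨Q, M, h'⟩ := hg
  exact ⟨P + Q, max N M, fun n hn => by
    dsimp only
    rw [eval_add, h n (le_trans (le_max_left _ _) hn), h' n (le_trans (le_max_right _ _) hn)]⟩

theorem EvPoly.sub {f g : ℕ → ℚ} (hf : EvPoly f) (hg : EvPoly g) :
    EvPoly (fun n => f n - g n) := by
  obtain ⟨P, N, h⟩ := hf
  obtain ⟨Q, M, h'⟩ := hg
  exact ⟨P - Q, max N M, fun n hn => by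
    dsimp only
    rw [eval_sub, h n (le_trans (le_max_left _ _) hn), h' n (le_trans (le_max_right _ _) hn)]⟩

theorem EvPoly.shift {f : ℕ → ℚ} (hf : EvPoly f) (e : ℕ) : EvPoly (fun n => f (n + e)) := by
  obtain ⟨P, N, h⟩ := hf
  refine ⟨P.comp (X + C (e : ℚ)), N, fun n hn => ?_⟩
  dsimp only
  rw [h (n + e) (by omega), eval_comp]
  congr 1
  simp

theorem EvPoly.unshift {f : ℕ → ℚ} (e : ℕ) (hf : EvPoly (fun n => f (n + e))) : EvPoly f := by
  obtain ⟨P, N, h⟩ := hf
  refine ⟨P.comp (X - C (e : ℚ)), N + e, fun n hn => ?_⟩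
  have h1 := h (n - e) (by omega)
  have h2 : n - e + e = n := by omega
  dsimp only at h1
  rw [h2] at h1
  rw [h1, eval_comp]
  congr 1
  rw [Nat.cast_sub (by omega)]
  simp

theorem exists_antidiff (P : ℚ[X]) :
    ∃ Q : ℚ[X], ∀ x : ℚ, Q.eval (x + 1) - Q.eval x = P.eval x := by
  induction P using Polynomial.induction_on' with
  | add p q hp hq =>
    obtain ⟨P, hP⟩ := hp
    obtain ⟨Q, hQ⟩ := hq
    refine ⟨P + Q, fun x => ?_⟩
    rw [eval_add, eval_add, eval_add, ← hP x, ← hQ x]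
    ring
  | monomial n a =>
    refine ⟨C (a / (n + 1)) * Polynomial.bernoulli (n + 1), fun x => ?_⟩
    have h := bernoulli_eval_one_add (n + 1) x
    rw [Nat.add_sub_cancel] at h
    rw [eval_mul, eval_mul, eval_C, eval_C, add_comm x 1, h, eval_monomial]
    have h1 : ((n : ℚ) + 1) ≠ 0 := by positivity
    push_cast
    field_simp
    ring

theorem EvPoly.of_diff {f : ℕ → ℚ} (hf : EvPoly (fun n => f (n + 1) - f n)) : EvPoly f := by
  obtain ⟨P, N, h⟩ := hf
  obtain ⟨Q, hQ⟩ := exists_antidiff P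
  refine ⟨Q + C (f N - Q.eval (N : ℚ)), N, fun n hn => ?_⟩
  induction n, hn using Nat.le_induction with
  | base => simp
  | succ n hn ih =>
    have h1 := h n hn
    have h2 := hQ n
    have h3 : f (n + 1) = f n + P.eval (n : ℚ) := by linarith
    rw [h3, ih]
    simp only [eval_add, eval_C]
    push_cast
    linarith

theorem EvPoly.of_two {f : ℕ → ℚ} (n : ℕ) (h1 : EvPoly (fun m => f (m + n) - f m))
    (h2 : EvPoly (fun m => f (m + (n + 1)) - f m)) : EvPoly f := by
  apply EvPoly.of_diff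
  apply EvPoly.unshift n
  have h3 := h2.sub h1
  have h4 : (fun m => (f (m + n + 1) - f (m + n))) =
      fun m => (f (m + (n + 1)) - f m - (f (m + n) - f m)) := by
    funext m
    rw [← add_assoc]
    ring
  rw [h4]
  exact h3

variable {k S : Type*} [Field k] [CommRing S] [Algebra k S] (𝒜 : ℕ → Submodule k S)
  [GradedAlgebra 𝒜] [∀ n, FiniteDimensional k (𝒜 n)]

theorem evPoly_hf [IsNoetherianRing S]
    (hL : ∀ p : Ideal S, p.IsPrime → p.IsHomogeneous 𝒜 → (∃ n, 0 < n ∧ ∃ x ∈ 𝒜 n, x ∉ p) →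
      ∃ n, ∃ x ∈ 𝒜 n, ∃ y ∈ 𝒜 (n + 1), x ∉ p ∧ y ∉ p)
    (I : Ideal S) : I.IsHomogeneous 𝒜 → EvPoly (fun n => (hf 𝒜 I n : ℚ)) := by
  induction I using WellFoundedGT.induction with
  | ind I ih =>
  intro hI
  have hlt : ∀ x : S, x ∉ I → I < I ⊔ Ideal.span {x} := by
    intro x hx
    refine lt_of_le_of_ne le_sup_left fun h => hx ?_
    rw [h]
    exact Ideal.mem_sup_right (Ideal.mem_span_singleton_self x)
  have hhom : ∀ (n : ℕ) (x : S), x ∈ 𝒜 n → (I ⊔ Ideal.span {x}).IsHomogeneous 𝒜 := by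
    intro n x hx
    refine Ideal.IsHomogeneous.sup hI (Ideal.homogeneous_span 𝒜 _ ?_)
    intro y hy
    rw [Set.mem_singleton_iff.mp hy]
    exact ⟨n, hx⟩
  by_cases hp : I.IsPrime
  · by_cases hpos : ∃ n, 0 < n ∧ ∃ x ∈ 𝒜 n, x ∉ I
    · obtain ⟨n, x, hx, y, hy, hxI, hyI⟩ := hL I hp hI hpos
      have key : ∀ (n : ℕ) (x : S), x ∈ 𝒜 n → x ∉ I →
          EvPoly (fun m => (hf 𝒜 I (m + n) : ℚ) - hf 𝒜 I m) := by
        intro n x hx hxI
        have h1 := (ih _ (hlt x hxI) (hhom n x hx)).shift n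
        have h2 : (fun m => (hf 𝒜 I (m + n) : ℚ) - hf 𝒜 I m) =
            fun m => (hf 𝒜 (I ⊔ Ideal.span {x}) (m + n) : ℚ) := by
          funext m
          have h3 := hf_step 𝒜 hI hx
            (fun z => ⟨fun h => (hp.mem_or_mem h).resolve_left hxI,
              fun h => I.mul_mem_left _ h⟩) m
          rw [← h3]
          push_cast
          ring
        rw [h2]
        exact h1
      exact EvPoly.of_two (f := fun n => (hf 𝒜 I n : ℚ)) n (key n x hx hxI) (key (n + 1) y hy hyI)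
    · push Not at hpos
      refine ⟨0, 1, fun n hn => ?_⟩
      simp [hf_eq_zero 𝒜 (fun x hx => hpos n (by omega) x hx)]
  · by_cases htop : I = ⊤
    · refine ⟨0, 0, fun n _ => ?_⟩
      simp [hf_eq_zero 𝒜 (I := I) (n := n) (fun x _ => by rw [htop]; trivial)]
    · have hex : ∃ x y : S, SetLike.IsHomogeneousElem 𝒜 x ∧ SetLike.IsHomogeneousElem 𝒜 y ∧
          x * y ∈ I ∧ x ∉ I ∧ y ∉ I := by
        by_contra hcon
        apply hp
        refine hI.isPrime_of_homogeneous_mem_or_mem htop ?_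
        intro x y hx hy hxy
        by_contra h
        rw [not_or] at h
        exact hcon ⟨x, y, hx, hy, hxy, h.1, h.2⟩
      obtain ⟨x, y, ⟨e, hx⟩, _, hxy, hxI, hyI⟩ := hex
      let K : Ideal S := Submodule.comap (LinearMap.mulLeft S x) I
      have hK : ∀ z, x * z ∈ I ↔ z ∈ K := fun z => Iff.rfl
      have hKhom : K.IsHomogeneous 𝒜 := by
        intro n z hz
        rw [← hK] at hz ⊢
        have h1 := hI (e + n) hz
        rw [coe_decompose_mul_of_left_mem_of_le 𝒜 hx (Nat.le_add_right e n),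
          Nat.add_sub_cancel_left] at h1
        exact h1
      have hIK : I < K := by
        refine lt_of_le_of_ne (fun z hz => I.mul_mem_left _ hz) fun h => hyI ?_
        rw [h]
        exact hxy
      have h1 := (ih _ (hlt x hxI) (hhom e x hx)).shift e
      have h2 := ih K hIK hKhom
      apply EvPoly.unshift e
      have h3 : (fun n => (hf 𝒜 I (n + e) : ℚ)) =
          fun n => (hf 𝒜 (I ⊔ Ideal.span {x}) (n + e) : ℚ) + hf 𝒜 K n := by
        funext n
        rw [← hf_step 𝒜 hI hx hK n]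
        push_cast
        ring
      rw [h3]
      exact h1.add h2

end Pool.Agent.U808.CG
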