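import Pool.Agent.U808.CG.Dev

/-!
# Gorenstein section rings

The functional equation `P(n) = H(n) - (-1)^d H(a - n)` between the Hilbert function `H` and the
Hilbert polynomial `P` of a graded Gorenstein algebra.
-/

set_option autoImplicit false

namespace Pool.Agent.U808.CG

open Polynomial Module

variable {k S : Type*} [Field k] [CommRing S] [Algebra k S] (𝒜 : ℕ → Submodule k S)

/-- The ideal generated by `θ 0, …, θ (i - 1)`. -/
def Idl (θ : ℕ → S) (i : ℕ) : Ideal S := Ideal.span (θ '' Set.Iio i)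

/-- The graded algebra `S = ⨁ 𝒜 n` with `𝒜 0 = k` is Gorenstein of dimension `d` with
`a`-invariant `a`: there is a regular sequence `θ 0, …, θ (d - 1)` of homogeneous elements of
positive degrees `e 0, …, e (d - 1)`, the quotient `S / (θ)` is zero in all large degrees, its
socle is one-dimensional and generated by the class of an element `σ` of degree `s`, and
`a = s - ∑ e i`. -/
def IsGorenstein (d : ℕ) (a : ℤ) : Prop :=
  ∃ (θ : ℕ → S) (e : ℕ → ℕ) (s : ℕ) (σ : S),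
    (∀ i, i < d → 0 < e i ∧ θ i ∈ 𝒜 (e i) ∧ ∀ x, θ i * x ∈ Idl θ i → x ∈ Idl θ i) ∧
    (∃ N, ∀ n, N ≤ n → ∀ x ∈ 𝒜 n, x ∈ Idl θ d) ∧
    σ ∈ 𝒜 s ∧ σ ∉ Idl θ d ∧ (∀ n, 0 < n → ∀ y ∈ 𝒜 n, y * σ ∈ Idl θ d) ∧
    (∀ x, (∀ n, 0 < n → ∀ y ∈ 𝒜 n, y * x ∈ Idl θ d) → ∃ c : k, x - c • σ ∈ Idl θ d) ∧
    a = s - ∑ i ∈ Finset.range d, (e i : ℤ)

/-- The Hilbert function of `S / I`, extended by zero. -/
noncomputable def H (I : Ideal S) (m : ℤ) : ℤ := if m < 0 then 0 else (hf 𝒜 I m.toNat : ℤ)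

variable [GradedAlgebra 𝒜]

/-- At every point `p` of `Proj S` there are elements of `S` of two consecutive degrees which do
not vanish; that is, `O(1)` is invertible on `Proj S`. If `S` is the section ring of an ample
invertible sheaf, this holds. -/
def ConsecutiveDegrees : Prop :=
  ∀ p : Ideal S, p.IsPrime → p.IsHomogeneous 𝒜 → (∃ n, 0 < n ∧ ∃ x ∈ 𝒜 n, x ∉ p) →
    ∃ n, ∃ x ∈ 𝒜 n, ∃ y ∈ 𝒜 (n + 1), x ∉ p ∧ y ∉ p

theorem idl_succ (θ : ℕ → S) (i : ℕ) : Idl θ (i + 1) = Idl θ i ⊔ Ideal.span {θ i} := by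
  unfold Idl
  rw [← Ideal.span_union]
  congr 1
  ext x
  simp only [Set.mem_image, Set.mem_Iio, Set.mem_union, Set.mem_singleton_iff]
  constructor
  · rintro ⟨j, hj, rfl⟩
    rcases Nat.lt_succ_iff_lt_or_eq.mp hj with h | h
    · exact Or.inl ⟨j, h, rfl⟩
    · exact Or.inr (by rw [h])
  · rintro (⟨j, hj, rfl⟩ | h)
    · exact ⟨j, by omega, rfl⟩
    · exact ⟨i, by omega, h.symm⟩

theorem idl_homogeneous {d : ℕ} {θ : ℕ → S} {e : ℕ → ℕ} (h : ∀ i, i < d → θ i ∈ 𝒜 (e i))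
    {i : ℕ} (hi : i ≤ d) : (Idl θ i).IsHomogeneous 𝒜 := by
  apply Ideal.homogeneous_span
  rintro _ ⟨j, hj, rfl⟩
  exact ⟨e j, h j (lt_of_lt_of_le hj hi)⟩

variable [∀ n, FiniteDimensional k (𝒜 n)]

theorem H_step {I : Ideal S} (hI : I.IsHomogeneous 𝒜) {e : ℕ} {θ : S} (hθ : θ ∈ 𝒜 e)
    (hreg : ∀ x, θ * x ∈ I → x ∈ I) :
    H 𝒜 (I ⊔ Ideal.span {θ}) = fun m => H 𝒜 I m - H 𝒜 I (m - e) := by
  funext m
  unfold H
  by_cases hm : m < 0
  · rw [if_pos hm, if_pos hm, if_pos (by omega)]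
    simp
  · obtain ⟨n, rfl⟩ : ∃ n : ℕ, m = n := ⟨m.toNat, by omega⟩
    rw [if_neg hm, if_neg hm, Int.toNat_natCast]
    by_cases hn : n < e
    · rw [if_pos (by omega), hf_step_lt 𝒜 hI hθ hn]
      simp
    · obtain ⟨j, rfl⟩ : ∃ j, n = j + e := ⟨n - e, by omega⟩
      have h1 := hf_step 𝒜 (K := I) hI hθ (fun x => ⟨hreg x, fun h => I.mul_mem_left _ h⟩) j
      have h2 : (((j + e : ℕ) : ℤ) - e).toNat = j := by omega
      rw [if_neg (by omega), h2]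
      omega

theorem sym_all {d : ℕ} {θ : ℕ → S} {e : ℕ → ℕ} {s : ℕ} {σ : S}
    (hθ : ∀ i, i < d → 0 < e i ∧ θ i ∈ 𝒜 (e i) ∧ ∀ x, θ i * x ∈ Idl θ i → x ∈ Idl θ i)
    (hN : ∃ N, ∀ n, N ≤ n → ∀ x ∈ 𝒜 n, x ∈ Idl θ d) (hσ : σ ∈ 𝒜 s) (hσI : σ ∉ Idl θ d)
    (hsoc : ∀ x, (∀ n, 0 < n → ∀ y ∈ 𝒜 n, y * x ∈ Idl θ d) → ∃ c : k, x - c • σ ∈ Idl θ d)
    (j : ℕ) (hj : j ≤ d) :
    Sym j (s - ∑ i ∈ Finset.Ico (d - j) d, (e i : ℤ)) (H 𝒜 (Idl θ (d - j))) := by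
  have hhom : ∀ i, i ≤ d → (Idl θ i).IsHomogeneous 𝒜 := fun i hi =>
    idl_homogeneous 𝒜 (fun i hi => (hθ i hi).2.1) hi
  induction j with
  | zero =>
    simp only [Nat.sub_zero, Finset.Ico_self, Finset.sum_empty, sub_zero]
    have hI := hhom d le_rfl
    have hz : ∀ m : ℤ, (s : ℤ) < m → H 𝒜 (Idl θ d) m = 0 := by
      intro m hm
      unfold H
      rw [if_neg (by omega), hf_zero 𝒜 hI hN hσ hsoc (by omega)]
      rfl
    apply sym_zero
    · exact ⟨s + 1, fun m hm => hz m (by omega)⟩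
    · intro m
      by_cases hm : m < 0
      · rw [hz (s - m) (by omega)]
        unfold H
        rw [if_pos hm]
      · by_cases hm2 : (s : ℤ) < m
        · rw [hz m hm2]
          unfold H
          rw [if_pos (by omega)]
        · unfold H
          rw [if_neg (by omega), if_neg hm]
          have h1 : ((s : ℤ) - m).toNat = s - m.toNat := by omega
          rw [h1, hf_symm 𝒜 hI hN hσ hsoc hσI (by omega)]
  | succ j ih =>
    have ih := ih (by omega)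
    have hi : d - (j + 1) < d := by omega
    have hi1 : d - j = (d - (j + 1)) + 1 := by omega
    obtain ⟨h1, h2, h3⟩ := hθ _ hi
    rw [hi1, idl_succ, H_step 𝒜 (hhom _ hi.le) h2 h3] at ih
    have hneg : ∀ m, m < 0 → H 𝒜 (Idl θ (d - (j + 1))) m = 0 := by
      intro m hm
      unfold H
      rw [if_pos hm]
    refine sym_step (e := (e (d - (j + 1)) : ℤ)) (by exact_mod_cast h1) hneg ?_
    have h4 : (s : ℤ) - ∑ i ∈ Finset.Ico (d - (j + 1)) d, (e i : ℤ) + (e (d - (j + 1)) : ℤ) =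
        s - ∑ i ∈ Finset.Ico (d - (j + 1) + 1) d, (e i : ℤ) := by
      rw [Finset.sum_eq_sum_Ico_succ_bot hi]
      ring
    rw [h4]
    exact ih

/-- The properties of the Hilbert function used below. -/
theorem main [IsNoetherianRing S] (h0 : finrank k (𝒜 0) = 1) (hL : ConsecutiveDegrees 𝒜)
    {d l : ℕ} (hG : IsGorenstein 𝒜 d (-((l + 1 : ℕ) : ℤ))) :
    ∃ (h : ℤ → ℤ) (P : ℚ[X]), (∀ n : ℕ, h n = finrank k (𝒜 n)) ∧ (∀ m, m < 0 → h m = 0) ∧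
      h 0 = 1 ∧ (∀ m, 0 ≤ h m) ∧ Sym d (-((l : ℤ) + 1)) h ∧
      ∃ N : ℤ, ∀ m : ℤ, N ≤ m → (h m : ℚ) = P.eval (m : ℚ) := by
  obtain ⟨θ, e, s, σ, hθ, hN, hσ, hσI, -, hsoc, ha⟩ := hG
  have hsym := sym_all 𝒜 hθ hN hσ hσI hsoc d le_rfl
  rw [Nat.sub_self, ← Finset.range_eq_Ico, ← ha] at hsym
  have hbot : Idl θ 0 = (⊥ : Ideal S) := by
    unfold Idl
    rw [show Set.Iio 0 = (∅ : Set ℕ) by ext; simp]
    simp
  rw [hbot] at hsym
  have hH : ∀ n : ℕ, H 𝒜 (⊥ : Ideal S) n = finrank k (𝒜 n) := by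
    intro n
    unfold H
    rw [if_neg (by omega), Int.toNat_natCast, hf_bot]
  have hbh : (⊥ : Ideal S).IsHomogeneous 𝒜 := Ideal.IsHomogeneous.bot 𝒜
  obtain ⟨P, N, hPN⟩ := evPoly_hf 𝒜 hL ⊥ hbh
  refine ⟨H 𝒜 (⊥ : Ideal S), P, hH, ?_, ?_, ?_, ?_, N, ?_⟩
  · intro m hm
    unfold H
    rw [if_pos hm]
  · have := hH 0
    rw [h0] at this
    exact_mod_cast this
  · intro m
    unfold H
    split_ifs <;> positivity
  · have : (-((l + 1 : ℕ) : ℤ)) = -((l : ℤ) + 1) := by push_cast; ring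
    rw [← this]
    exact hsym
  · intro m hm
    obtain ⟨n, rfl⟩ : ∃ n : ℕ, m = n := ⟨m.toNat, by omega⟩
    have := hPN n (by omega)
    unfold H
    rw [if_neg (by omega), Int.toNat_natCast]
    exact_mod_cast this

end Pool.Agent.U808.CG
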