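import Mathlib

/-!
# Hilbert functions with a symmetry

The numerical part: the difference of a Hilbert function and its Hilbert polynomial, and the
consequences of the symmetry of the Hilbert polynomial.
-/

set_option autoImplicit false

open Polynomial

namespace Pool.Agent.U808.CG

theorem poly_ext {P Q : ℚ[X]} (N : ℤ)
    (h : ∀ m : ℤ, N ≤ m → P.eval (m : ℚ) = Q.eval (m : ℚ)) : P = Q := by
  apply Polynomial.eq_of_infinite_eval_eq
  have hinj : Function.Injective (fun n : ℕ => ((N + n : ℤ) : ℚ)) := by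
    intro a b hab
    have h1 : ((N + a : ℤ) : ℚ) = ((N + b : ℤ) : ℚ) := hab
    have h2 : (N + a : ℤ) = N + b := by exact_mod_cast h1
    omega
  refine (Set.infinite_range_of_injective hinj).mono ?_
  rintro _ ⟨n, rfl⟩
  exact h _ (by omega)

/-- The functional equation: for the Hilbert polynomial `P` of `H`, if it exists. -/
def Sym (d : ℕ) (a : ℤ) (H : ℤ → ℤ) : Prop :=
  ∀ P : ℚ[X], (∃ N : ℤ, ∀ m : ℤ, N ≤ m → (H m : ℚ) = P.eval (m : ℚ)) →
    P.degree < (d : ℕ) ∧ ∀ m : ℤ, P.eval (m : ℚ) = H m - (-1) ^ d * H (a - m)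

theorem sym_zero {s : ℤ} {H : ℤ → ℤ} (h0 : ∃ N : ℤ, ∀ m, N ≤ m → H m = 0)
    (hs : ∀ m, H (s - m) = H m) : Sym 0 s H := by
  rintro P ⟨N, hN⟩
  obtain ⟨M, hM⟩ := h0
  have hP : P = 0 := by
    apply poly_ext (max N M)
    intro m hm
    rw [← hN m (le_trans (le_max_left _ _) hm), hM m (le_trans (le_max_right _ _) hm)]
    simp
  subst hP
  refine ⟨by simp, fun m => ?_⟩
  simp [hs]

theorem degree_diff (P : ℚ[X]) (e : ℚ) (he : e ≠ 0) (d : ℕ)
    (h : (P - P.comp (X - C e)).degree < (d : ℕ)) : P.degree < ((d + 1 : ℕ) : WithBot ℕ) := by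
  by_contra hcon
  rw [not_lt] at hcon
  have hP0 : P ≠ 0 := by
    rintro rfl
    simp at hcon
  rw [Polynomial.degree_eq_natDegree hP0] at hcon
  have hN : d + 1 ≤ P.natDegree := by exact_mod_cast hcon
  obtain ⟨n, hn⟩ : ∃ n, P.natDegree = n + 1 := ⟨P.natDegree - 1, by omega⟩
  have h1 : (P - P.comp (X - C e)).coeff n = 0 := by
    apply Polynomial.coeff_eq_zero_of_degree_lt
    refine lt_of_lt_of_le h ?_
    exact_mod_cast (by omega : d ≤ n)
  have h2 : P.comp (X - C e) = taylor (-e) P := by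
    rw [taylor_apply]
    simp [sub_eq_add_neg]
  rw [coeff_sub, h2, taylor_coeff] at h1
  have h3 : (hasseDeriv n P).natDegree < 2 := by
    have := natDegree_hasseDeriv_le P n
    omega
  rw [Polynomial.eval_eq_sum_range' h3] at h1
  simp only [Finset.sum_range_succ, Finset.sum_range_zero, hasseDeriv_coeff] at h1
  have h4 : P.coeff (n + 1) ≠ 0 := by
    rw [← hn]
    exact leadingCoeff_ne_zero.mpr hP0
  have h5 : (1 + n).choose n = n + 1 := by
    rw [add_comm, Nat.choose_succ_self_right]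
  rw [h5] at h1
  simp only [zero_add, Nat.choose_self, Nat.cast_one, one_mul, pow_zero, mul_one, pow_one] at h1
  rw [add_comm 1 n] at h1
  push_cast at h1
  have h6 : ((n : ℚ) + 1) * P.coeff (n + 1) * e = 0 := by linear_combination h1
  have h7 : ((n : ℚ) + 1) ≠ 0 := by positivity
  exact (mul_ne_zero (mul_ne_zero h7 h4) he) h6

theorem sym_step {d : ℕ} {a e : ℤ} {H : ℤ → ℤ} (he : 0 < e) (hneg : ∀ m, m < 0 → H m = 0)
    (hs : Sym d (a + e) (fun m => H m - H (m - e))) : Sym (d + 1) a H := by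
  rintro P ⟨N, hN⟩
  obtain ⟨h1, h2⟩ := hs (P - P.comp (X - C (e : ℚ))) ⟨N + e, fun m hm => by
    rw [eval_sub, eval_comp, ← hN m (by omega)]
    have : eval (m : ℚ) (X - C (e : ℚ)) = ((m - e : ℤ) : ℚ) := by simp
    rw [this, ← hN (m - e) (by omega)]
    push_cast
    ring⟩
  refine ⟨degree_diff P e (by exact_mod_cast he.ne') d h1, ?_⟩
  -- the difference of both sides is `e`-periodic and zero for large arguments
  set G : ℤ → ℚ := fun m => P.eval (m : ℚ) - (H m - (-1) ^ (d + 1) * H (a - m)) with hG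
  have hper : ∀ m, G m = G (m - e) := by
    intro m
    have h3 := h2 m
    rw [eval_sub, eval_comp] at h3
    have : eval (m : ℚ) (X - C (e : ℚ)) = ((m - e : ℤ) : ℚ) := by simp
    rw [this] at h3
    have e1 : a + e - m - e = a - m := by ring
    have e2 : a - (m - e) = a + e - m := by ring
    simp only [hG]
    dsimp only at h3
    rw [e1] at h3
    rw [e2]
    push_cast at h3 ⊢
    rw [pow_succ]
    linear_combination h3
  have hlarge : ∀ m, N ≤ m → a < m → G m = 0 := by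
    intro m hm1 hm2
    simp only [hG]
    rw [← hN m hm1, hneg (a - m) (by omega)]
    simp
  have hper2 : ∀ (j : ℕ) m, G m = G (m + j * e) := by
    intro j
    induction j with
    | zero => intro m; simp
    | succ j ih =>
      intro m
      rw [ih m, hper (m + ((j + 1 : ℕ) : ℤ) * e)]
      congr 1
      push_cast
      ring
  intro m
  have hz : G m = 0 := by
    rw [hper2 (N.natAbs + a.natAbs + m.natAbs + 1) m]
    have hb : ((N.natAbs + a.natAbs + m.natAbs + 1 : ℕ) : ℤ) * 1 ≤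
        ((N.natAbs + a.natAbs + m.natAbs + 1 : ℕ) : ℤ) * e :=
      mul_le_mul_of_nonneg_left (by omega) (by positivity)
    apply hlarge
    · omega
    · omega
  have := sub_eq_zero.mp hz
  exact this

/-- the product `(X + 1) ⋯ (X + n)` -/
noncomputable def F (n : ℕ) : ℚ[X] := ∏ j ∈ Finset.range n, (X + C ((j : ℚ) + 1))

theorem F_eval (n : ℕ) (x : ℚ) : (F n).eval x = ∏ j ∈ Finset.range n, (x + ((j : ℚ) + 1)) := by
  simp [F, eval_prod]

theorem F_pos (n : ℕ) (x : ℚ) (hx : 0 ≤ x) : 0 < (F n).eval x := by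
  rw [F_eval]
  exact Finset.prod_pos fun j _ => by positivity

theorem F_monic (n : ℕ) : (F n).Monic := by
  unfold F
  exact monic_prod_of_monic _ _ fun j _ => monic_X_add_C _

theorem F_natDegree (n : ℕ) : (F n).natDegree = n := by
  unfold F
  rw [natDegree_prod_of_monic _ _ fun j _ => monic_X_add_C _]
  simp only [natDegree_X_add_C, Finset.sum_const, Finset.card_range, smul_eq_mul, mul_one]

theorem F_symm (n : ℕ) (x : ℚ) : (F n).eval (-(n + 1) - x) = (-1) ^ n * (F n).eval x := by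
  rw [F_eval, F_eval]
  rw [← Finset.prod_range_reflect (fun j => x + ((j : ℚ) + 1)) n]
  have : ((-1 : ℚ)) ^ n = ∏ j ∈ Finset.range n, (-1 : ℚ) := by simp
  rw [this, ← Finset.prod_mul_distrib]
  apply Finset.prod_congr rfl
  intro j hj
  rw [Finset.mem_range] at hj
  have h1 : ((n - 1 - j : ℕ) : ℚ) = (n : ℚ) - 1 - j := by
    rw [Nat.sub_sub, Nat.cast_sub (by omega)]
    push_cast
    ring
  rw [h1]
  ring

theorem F_dvd (P : ℚ[X]) (n : ℕ) (h : ∀ j : ℕ, j < n → P.eval (-((j : ℚ) + 1)) = 0) :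
    ∃ R : ℚ[X], P = F n * R := by
  induction n with
  | zero => exact ⟨P, by simp [F]⟩
  | succ n ih =>
    obtain ⟨R, hR⟩ := ih fun j hj => h j (by omega)
    have h1 := h n (by omega)
    rw [hR, eval_mul] at h1
    have h2 : (F n).eval (-((n : ℚ) + 1)) ≠ 0 := by
      have := F_symm n 0
      rw [sub_zero] at this
      rw [this]
      exact mul_ne_zero (by simp) (F_pos n 0 le_rfl).ne'
    have h3 : R.eval (-((n : ℚ) + 1)) = 0 := by
      rcases mul_eq_zero.mp h1 with h | h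
      · exact absurd h h2
      · exact h
    obtain ⟨T, hT⟩ := dvd_iff_isRoot.mpr h3
    refine ⟨T, ?_⟩
    rw [hR, hT]
    unfold F
    rw [Finset.prod_range_succ]
    simp only [C_neg, sub_neg_eq_add]
    ring

/-- a quadratic function which is nonnegative on `ℕ` has nonnegative leading coefficient -/
theorem nonneg_lead (b c r : ℚ) (hr : 0 ≤ r) (h : ∀ n : ℕ, 0 ≤ b + c * (n * (n + r))) : 0 ≤ c := by
  by_contra hc
  rw [not_le] at hc
  obtain ⟨n, hn⟩ := exists_nat_gt (b / (-c))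
  have h1 := h (n + 1)
  rw [div_lt_iff₀ (by linarith)] at hn
  have h2 : (0 : ℚ) ≤ n := by positivity
  have h3 : ((n : ℚ)) ≤ ((n + 1 : ℕ) : ℚ) * (((n + 1 : ℕ) : ℚ) + r) := by
    push_cast
    nlinarith [mul_nonneg h2 hr]
  have h4 := mul_le_mul_of_nonpos_left h3 hc.le
  linarith

/-- polynomials of degree at most three which are symmetric or antisymmetric about `-r/2` -/
theorem cubic (R : ℚ[X]) (hR : R.natDegree ≤ 3) (r : ℚ) (hr : 0 < r) (ε : ℚ)
    (hε : ε = 1 ∨ ε = -1) (hs : ∀ n : ℕ, R.eval (-r - n) = ε * R.eval (n : ℚ))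
    (hn : ∀ n : ℕ, 0 ≤ R.eval (n : ℚ)) (l : ℕ) : R.eval 0 ≤ R.eval (l : ℚ) := by
  have hev : ∀ x : ℚ, R.eval x = R.coeff 0 + R.coeff 1 * x + R.coeff 2 * x ^ 2 +
      R.coeff 3 * x ^ 3 := by
    intro x
    rw [Polynomial.eval_eq_sum_range' (Nat.lt_succ_of_le hR)]
    simp [Finset.sum_range_succ]
  generalize R.coeff 0 = c0 at hev
  generalize R.coeff 1 = c1 at hev
  generalize R.coeff 2 = c2 at hev
  generalize R.coeff 3 = c3 at hev
  have s0 := hs 0
  have s1 := hs 1
  have s2 := hs 2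
  have s3 := hs 3
  have hl : (0 : ℚ) ≤ l := by positivity
  simp only [hev] at s0 s1 s2 s3 hn ⊢
  push_cast at s0 s1 s2 s3
  rcases hε with rfl | rfl
  · have h3 : c3 = 0 := by linear_combination (-1 / 12) * (s3 - 3 * s2 + 3 * s1 - s0)
    subst h3
    have h1 : c1 = r * c2 := by linear_combination (-1 / 2) * (s1 - s0)
    subst h1
    have hc : 0 ≤ c2 := by
      apply nonneg_lead c0 c2 r hr.le
      intro n
      have := hn n
      linarith [this, show c0 + c2 * ((n : ℚ) * (n + r)) =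
        c0 + r * c2 * n + c2 * (n : ℚ) ^ 2 + 0 * (n : ℚ) ^ 3 by ring]
    nlinarith [mul_nonneg (mul_nonneg hr.le hc) hl, mul_nonneg hc (mul_nonneg hl hl)]
  · have h2 : c2 = 3 / 2 * r * c3 := by linear_combination (1 / 4) * (s2 - 2 * s1 + s0)
    subst h2
    have h0 : 2 * c0 = r * c1 - r ^ 3 * c3 / 2 := by linear_combination s0
    have hc0 : 0 ≤ c0 := by
      have := hn 0
      push_cast at this
      linarith
    have h6 : ∀ x : ℚ, r * (c0 + c1 * x + 3 / 2 * r * c3 * x ^ 2 + c3 * x ^ 3) =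
        (2 * x + r) * (c0 + c3 * r / 2 * (x * (x + r))) := by
      intro x
      linear_combination (-x) * h0
    have key : 0 ≤ c3 * r / 2 := by
      apply nonneg_lead c0 (c3 * r / 2) r hr.le
      intro n
      have h5 := hn n
      have h7 : (0 : ℚ) < 2 * n + r := by positivity
      have h8 : 0 ≤ (2 * n + r) * (c0 + c3 * r / 2 * ((n : ℚ) * (n + r))) := by
        rw [← h6]
        exact mul_nonneg hr.le h5
      exact nonneg_of_mul_nonneg_right h8 h7
    have h9 : r * c0 ≤ r * (c0 + c1 * l + 3 / 2 * r * c3 * (l : ℚ) ^ 2 + c3 * (l : ℚ) ^ 3) := by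
      rw [h6]
      have h10 : 0 ≤ c3 * r / 2 * ((l : ℚ) * (l + r)) := by positivity
      have h11 : r * c0 ≤ (2 * l + r) * c0 := by nlinarith [mul_nonneg hl hc0]
      have h12 : (2 * l + r) * c0 ≤
          (2 * l + r) * (c0 + c3 * r / 2 * ((l : ℚ) * (l + r))) :=
        mul_le_mul_of_nonneg_left (by linarith) (by positivity)
      exact h11.trans h12
    have h10 := le_of_mul_le_mul_left h9 hr
    linarith

/-- The Hilbert polynomial is the product of `(X + 1) ⋯ (X + n)`, where `-a = n + 1`, and a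
symmetric or antisymmetric polynomial. -/
theorem num_R {d n : ℕ} {H : ℤ → ℤ} (hneg : ∀ m, m < 0 → H m = 0) (h0 : H 0 = 1)
    (hpos : ∀ m, 0 ≤ H m) (hs : Sym d (-((n : ℤ) + 1)) H) (P : ℚ[X])
    (hP : ∃ N : ℤ, ∀ m : ℤ, N ≤ m → (H m : ℚ) = P.eval (m : ℚ)) :
    ∃ (R : ℚ[X]) (ε : ℚ), (ε = 1 ∨ ε = -1) ∧ R.natDegree + n < d ∧
      (∀ m : ℕ, (H m : ℚ) = (F n).eval (m : ℚ) * R.eval (m : ℚ)) ∧
      (∀ m : ℕ, R.eval (-((n : ℚ) + 1) - m) = ε * R.eval (m : ℚ)) ∧
      (∀ m : ℕ, 0 ≤ R.eval (m : ℚ)) ∧ (F n).eval 0 * R.eval 0 = 1 := by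
  obtain ⟨hdeg, hsym⟩ := hs P hP
  have hP0 : P.eval 0 = 1 := by
    have := hsym 0
    rw [hneg (-((n : ℤ) + 1) - 0) (by omega), h0] at this
    push_cast at this
    rw [this]
    ring
  have hPn : ∀ m : ℕ, P.eval (m : ℚ) = H m := by
    intro m
    have := hsym m
    rw [hneg (-((n : ℤ) + 1) - m) (by omega)] at this
    push_cast at this
    rw [this]
    ring
  have hProot : ∀ j : ℕ, j < n → P.eval (-((j : ℚ) + 1)) = 0 := by
    intro j hj
    have := hsym (-((j : ℤ) + 1))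
    rw [hneg _ (by omega), hneg (-((n : ℤ) + 1) - (-((j : ℤ) + 1))) (by omega)] at this
    push_cast at this
    rw [this]
    ring
  have hPsym : ∀ m : ℕ, P.eval (-((n : ℚ) + 1) - m) = -(-1) ^ d * P.eval (m : ℚ) := by
    intro m
    have := hsym (-((n : ℤ) + 1) - m)
    rw [hneg (-((n : ℤ) + 1) - m) (by omega),
      show -((n : ℤ) + 1) - (-((n : ℤ) + 1) - (m : ℤ)) = m by ring] at this
    rw [hPn m]
    push_cast at this
    rw [this]
    ring
  obtain ⟨R, hR⟩ := F_dvd P n hProot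
  have hPne : P ≠ 0 := by
    rintro rfl
    simp at hP0
  have hRne : R ≠ 0 := by
    rintro rfl
    exact hPne (by rw [hR, mul_zero])
  have hnat : P.natDegree < d := by
    rw [Polynomial.degree_eq_natDegree hPne] at hdeg
    exact_mod_cast hdeg
  refine ⟨R, -(-1) ^ d * (-1) ^ n, ?_, ?_, ?_, ?_, ?_, ?_⟩
  · rcases neg_one_pow_eq_or ℚ d with h | h <;> rcases neg_one_pow_eq_or ℚ n with h' | h' <;>
      simp [h, h']
  · rw [hR, natDegree_mul (F_monic n).ne_zero hRne, F_natDegree] at hnat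
    omega
  · intro m
    rw [← hPn m, hR, eval_mul]
  · intro m
    have h1 := hPsym m
    rw [hR, eval_mul, eval_mul, F_symm] at h1
    have h2 := (F_pos n m (by positivity)).ne'
    have h3 : ((-1 : ℚ) ^ n) * (-1) ^ n = 1 := by
      rw [← mul_pow]; simp
    apply mul_left_cancel₀ h2
    linear_combination ((-1 : ℚ) ^ n) * h1 -
      (eval (m : ℚ) (F n) * eval (-((n : ℚ) + 1) - m) R) * h3
  · intro m
    have h1 := hPn m
    rw [hR, eval_mul] at h1
    have h2 := F_pos n m (by positivity)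
    have h3 : (0 : ℚ) ≤ H m := by exact_mod_cast hpos m
    rw [← h1] at h3
    exact nonneg_of_mul_nonneg_right h3 h2
  · rw [hR, eval_mul] at hP0
    exact hP0

theorem F_choose (n m : ℕ) : (F n).eval (m : ℚ) = ((m + n).choose n : ℚ) * (F n).eval 0 := by
  rw [F_eval, F_eval]
  induction n with
  | zero => simp
  | succ n ih =>
    rw [Finset.prod_range_succ, Finset.prod_range_succ, ih]
    have h1 := Nat.add_one_mul_choose_eq (m + n) n
    have h2 : ((m + n + 1 : ℕ) : ℚ) * (m + n).choose n = (m + n + 1).choose (n + 1) * (n + 1) := by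
      exact_mod_cast h1
    push_cast at h2
    rw [← add_assoc m n 1]
    linear_combination (∏ x ∈ Finset.range n, ((0 : ℚ) + ((x : ℚ) + 1))) * h2

/-- The numerical part of the first assertion. -/
theorem num {d n : ℕ} {H : ℤ → ℤ} (hd : d ≤ n + 4) (hneg : ∀ m, m < 0 → H m = 0) (h0 : H 0 = 1)
    (hpos : ∀ m, 0 ≤ H m) (hs : Sym d (-((n : ℤ) + 1)) H) (P : ℚ[X])
    (hP : ∃ N : ℤ, ∀ m : ℤ, N ≤ m → (H m : ℚ) = P.eval (m : ℚ)) (m : ℕ) :
    ((m + n).choose n : ℤ) ≤ H m := by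
  obtain ⟨R, ε, hε, hdeg, hH, hsym, hRn, hR0⟩ := num_R hneg h0 hpos hs P hP
  have h1 := cubic R (by omega) ((n : ℚ) + 1) (by positivity) ε hε hsym hRn m
  have hF0 := F_pos n 0 le_rfl
  have h2 : ((m + n).choose n : ℚ) ≤ H m := by
    rw [hH, F_choose]
    have h4 : ((m + n).choose n : ℚ) = (((m + n).choose n : ℚ) * (F n).eval 0) * R.eval 0 := by
      rw [mul_assoc, hR0, mul_one]
    have h5 : (0 : ℚ) ≤ ((m + n).choose n : ℚ) * (F n).eval 0 := mul_nonneg (by positivity) hF0.le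
    exact h4.le.trans (mul_le_mul_of_nonneg_left h1 h5)
  exact_mod_cast h2

/-- the product of `(X - i) (X + r + i)`, `i ∈ Z` -/
noncomputable def G (r : ℚ) (Z : Finset ℕ) : ℚ[X] :=
  ∏ i ∈ Z, ((X - C (i : ℚ)) * (X - C (-r - (i : ℚ))))

theorem G_eval (r : ℚ) (Z : Finset ℕ) (x : ℚ) : (G r Z).eval x =
    ∏ i ∈ Z, ((x - (i : ℚ)) * (x + r + (i : ℚ))) := by
  simp only [G, eval_prod, eval_mul, eval_sub, eval_X, eval_C]
  exact Finset.prod_congr rfl fun i _ => by ring

theorem G_monic (r : ℚ) (Z : Finset ℕ) : (G r Z).Monic := by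
  unfold G
  exact monic_prod_of_monic _ _ fun j _ => (monic_X_sub_C _).mul (monic_X_sub_C _)

theorem G_natDegree (r : ℚ) (Z : Finset ℕ) : (G r Z).natDegree = 2 * Z.card := by
  unfold G
  rw [natDegree_prod_of_monic _ _ fun j _ => (monic_X_sub_C _).mul (monic_X_sub_C _)]
  simp only [(monic_X_sub_C _).natDegree_mul (monic_X_sub_C _), natDegree_X_sub_C, Finset.sum_const,
    smul_eq_mul]
  ring

theorem G_symm (r : ℚ) (Z : Finset ℕ) (x : ℚ) : (G r Z).eval (-r - x) = (G r Z).eval x := by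
  rw [G_eval, G_eval]
  exact Finset.prod_congr rfl fun i _ => by ring

theorem G_pos {r : ℚ} (hr : 0 < r) (Z : Finset ℕ) (m : ℕ) (hm : ∀ i ∈ Z, i < m) :
    0 < (G r Z).eval (m : ℚ) := by
  rw [G_eval]
  apply Finset.prod_pos
  intro i hi
  have h1 : (i : ℚ) < m := by exact_mod_cast hm i hi
  have h2 : (0 : ℚ) ≤ i := by positivity
  apply mul_pos <;> linarith

theorem G_ne {r : ℚ} (hr : 0 < r) (Z : Finset ℕ) (m : ℕ) (hm : m ∉ Z) :
    (G r Z).eval (m : ℚ) ≠ 0 := by
  rw [G_eval]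
  apply Finset.prod_ne_zero_iff.mpr
  intro i hi
  apply mul_ne_zero
  · rw [sub_ne_zero]
    intro h
    have : m = i := by exact_mod_cast h
    exact hm (this ▸ hi)
  · positivity

theorem G_zero {r : ℚ} (hr : 0 < r) {Z : Finset ℕ} (hZ : ∀ i ∈ Z, 0 < i) (ht : Odd Z.card) :
    (G r Z).eval 0 < 0 := by
  have h1 : (G r Z).eval 0 = (-1) ^ Z.card * ∏ i ∈ Z, ((i : ℚ) * (r + (i : ℚ))) := by
    rw [G_eval]
    have : ((-1 : ℚ)) ^ Z.card = ∏ j ∈ Z, (-1 : ℚ) := by simp
    rw [this, ← Finset.prod_mul_distrib]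
    exact Finset.prod_congr rfl fun i _ => by ring
  rw [h1, ht.neg_one_pow]
  have h2 : 0 < ∏ i ∈ Z, ((i : ℚ) * (r + (i : ℚ))) := by
    apply Finset.prod_pos
    intro i hi
    have h3 : (0 : ℚ) < i := by exact_mod_cast hZ i hi
    positivity
  linarith

theorem G_dvd {r : ℚ} (hr : 0 < r) (R : ℚ[X]) (Z : Finset ℕ)
    (h : ∀ i ∈ Z, R.eval (i : ℚ) = 0 ∧ R.eval (-r - (i : ℚ)) = 0) :
    ∃ T : ℚ[X], R = G r Z * T := by
  induction Z using Finset.induction_on with
  | empty => exact ⟨R, by simp [G]⟩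
  | insert t Z hZ ih =>
    obtain ⟨T, hT⟩ := ih fun i hi => h i (Finset.mem_insert_of_mem hi)
    obtain ⟨h1, h2⟩ := h t (Finset.mem_insert_self t Z)
    have hG := G_ne hr Z t hZ
    rw [hT, eval_mul] at h1 h2
    rw [G_symm] at h2
    have h3 : T.IsRoot (t : ℚ) := (mul_eq_zero.mp h1).resolve_left hG
    have h4 : T.eval (-r - (t : ℚ)) = 0 := (mul_eq_zero.mp h2).resolve_left hG
    obtain ⟨U, hU⟩ := dvd_iff_isRoot.mpr h3
    rw [hU, eval_mul] at h4
    have h5 : (X - C (t : ℚ)).eval (-r - (t : ℚ)) ≠ 0 := by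
      simp only [eval_sub, eval_X, eval_C]
      have : (0 : ℚ) ≤ t := by positivity
      apply ne_of_lt
      linarith
    obtain ⟨V, hV⟩ := dvd_iff_isRoot.mpr ((mul_eq_zero.mp h4).resolve_left h5)
    refine ⟨V, ?_⟩
    rw [hT, hU, hV]
    unfold G
    rw [Finset.prod_insert hZ]
    ring

/-- The numerical part of the bound for the number of missing degrees. -/
theorem num2 {d n : ℕ} {H : ℤ → ℤ} (hneg : ∀ m, m < 0 → H m = 0) (h0 : H 0 = 1)
    (hpos : ∀ m, 0 ≤ H m) (hs : Sym d (-((n : ℤ) + 1)) H) (P : ℚ[X])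
    (hP : ∃ N : ℤ, ∀ m : ℤ, N ≤ m → (H m : ℚ) = P.eval (m : ℚ))
    (Z : Finset ℕ) (hZ : ∀ i ∈ Z, 0 < i ∧ H i = 0) :
    n + 1 + 2 * Z.card ≤ d ∧ (Odd Z.card → n + 1 + 2 * Z.card + 2 ≤ d) := by
  obtain ⟨R, ε, hε, hdeg, hH, hsym, hRn, hR0⟩ := num_R hneg h0 hpos hs P hP
  have hr : (0 : ℚ) < (n : ℚ) + 1 := by positivity
  have hRz : ∀ i ∈ Z, R.eval (i : ℚ) = 0 := by
    intro i hi
    have h1 := hH i
    rw [(hZ i hi).2] at h1
    have h2 := F_pos n (i : ℚ) (by positivity)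
    rw [Int.cast_zero] at h1
    exact (mul_eq_zero.mp h1.symm).resolve_left h2.ne'
  obtain ⟨T, hT⟩ := G_dvd hr R Z fun i hi => ⟨hRz i hi, by
    rw [hsym i, hRz i hi, mul_zero]⟩
  have hRne : R ≠ 0 := by
    rintro rfl
    simp at hR0
  have hTne : T ≠ 0 := by
    rintro rfl
    exact hRne (by rw [hT, mul_zero])
  have hdegT : 2 * Z.card + T.natDegree + n < d := by
    rw [hT, natDegree_mul (G_monic _ Z).ne_zero hTne, G_natDegree] at hdeg
    exact hdeg
  refine ⟨by omega, fun hodd => ?_⟩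
  by_contra hcon
  have hTdeg : T.natDegree ≤ 1 := by omega
  have hev : ∀ x : ℚ, T.eval x = T.coeff 0 + T.coeff 1 * x := by
    intro x
    rw [Polynomial.eval_eq_sum_range' (Nat.lt_succ_of_le hTdeg)]
    simp [Finset.sum_range_succ]
  generalize T.coeff 0 = u at hev
  generalize T.coeff 1 = v at hev
  have hu : u < 0 := by
    have h1 : 0 < R.eval 0 := by
      have hF0 := F_pos n 0 le_rfl
      by_contra h
      rw [not_lt] at h
      nlinarith [mul_nonneg_of_nonpos_of_nonpos (neg_nonpos.mpr hF0.le) h]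
    rw [hT, eval_mul, hev] at h1
    have h2 := G_zero hr (fun i hi => (hZ i hi).1) hodd
    by_contra h
    rw [not_lt] at h
    nlinarith [mul_nonneg_of_nonpos_of_nonpos h2.le (neg_nonpos.mpr h)]
  obtain ⟨t, ht⟩ : ∃ t : ℕ, ∀ i ∈ Z, i < t := ⟨Z.sup id + 1, fun i hi =>
    Nat.lt_succ_of_le (Finset.le_sup (f := id) hi)⟩
  have hG1 := G_pos hr Z t ht
  have hTn : 0 ≤ u + v * t := by
    have h1 := hRn t
    rw [hT, eval_mul, hev] at h1
    exact nonneg_of_mul_nonneg_right h1 hG1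
  have hv : 0 < v := by
    by_contra h
    rw [not_lt] at h
    have h2 : v * (t : ℚ) ≤ 0 := mul_nonpos_of_nonpos_of_nonneg h (by positivity)
    linarith
  have hs1 := hsym t
  rw [hT, eval_mul, eval_mul, G_symm, hev, hev] at hs1
  have hs2 : u + v * (-((n : ℚ) + 1) - (t : ℚ)) = ε * (u + v * (t : ℚ)) := by
    apply mul_left_cancel₀ hG1.ne'
    linear_combination hs1
  rcases hε with rfl | rfl
  · have h1 : v * ((n : ℚ) + 1 + 2 * (t : ℚ)) = 0 := by linear_combination -hs2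
    have h2 : 0 < v * ((n : ℚ) + 1 + 2 * (t : ℚ)) := mul_pos hv (by positivity)
    linarith
  · have h1 : v * ((n : ℚ) + 1) = 2 * u := by linear_combination -hs2
    have h2 : 0 < v * ((n : ℚ) + 1) := mul_pos hv (by positivity)
    linarith

end Pool.Agent.U808.CG
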