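import Pool.Agent.U808.CG.Num

/-!
# Symmetric Hilbert polynomials of coindex four and five

The numerical part: if the Hilbert function vanishes at `1`, it is large at the other integers.
-/

set_option autoImplicit false

open Polynomial

namespace Pool.Agent.U808.CG

/-- As `num_R`, with the sign. -/
theorem num_R' {d n : ℕ} {H : ℤ → ℤ} (hneg : ∀ m, m < 0 → H m = 0) (h0 : H 0 = 1)
    (hpos : ∀ m, 0 ≤ H m) (hs : Sym d (-((n : ℤ) + 1)) H) (P : ℚ[X])
    (hP : ∃ N : ℤ, ∀ m : ℤ, N ≤ m → (H m : ℚ) = P.eval (m : ℚ)) :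
    ∃ R : ℚ[X], R.natDegree + n < d ∧
      (∀ m : ℕ, (H m : ℚ) = (F n).eval (m : ℚ) * R.eval (m : ℚ)) ∧
      (∀ m : ℕ, R.eval (-((n : ℚ) + 1) - m) = (-(-1) ^ d * (-1) ^ n) * R.eval (m : ℚ)) ∧
      (∀ m : ℕ, 0 ≤ R.eval (m : ℚ)) ∧ (F n).eval 0 * R.eval 0 = 1 := by
  obtain ⟨hdeg, hsym⟩ := hs P hP
  have hP0 : P.eval 0 = 1 := by
    have := hsym 0
    rw [hneg (-((n : ℤ) + 1) - 0) (by omega), h0] at this
    push_cast at this
    rw [this]
    ring
  have hPn : ∀ m : ℕ, P.eval (m : ℚ) = H m := by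
    intro m
    have := hsym m
    rw [hneg (-((n : ℤ) + 1) - m) (by omega)] at this
    push_cast at this
    rw [this]
    ring
  have hProot : ∀ j : ℕ, j < n → P.eval (-((j : ℚ) + 1)) = 0 := by
    intro j hj
    have := hsym (-((j : ℤ) + 1))
    rw [hneg _ (by omega), hneg (-((n : ℤ) + 1) - (-((j : ℤ) + 1))) (by omega)] at this
    push_cast at this
    rw [this]
    ring
  have hPsym : ∀ m : ℕ, P.eval (-((n : ℚ) + 1) - m) = -(-1) ^ d * P.eval (m : ℚ) := by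
    intro m
    have := hsym (-((n : ℤ) + 1) - m)
    rw [hneg (-((n : ℤ) + 1) - m) (by omega),
      show -((n : ℤ) + 1) - (-((n : ℤ) + 1) - (m : ℤ)) = m by ring] at this
    rw [hPn m]
    push_cast at this
    rw [this]
    ring
  obtain ⟨R, hR⟩ := F_dvd P n hProot
  have hPne : P ≠ 0 := by
    rintro rfl
    simp at hP0
  have hRne : R ≠ 0 := by
    rintro rfl
    exact hPne (by rw [hR, mul_zero])
  have hnat : P.natDegree < d := by
    rw [Polynomial.degree_eq_natDegree hPne] at hdeg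
    exact_mod_cast hdeg
  refine ⟨R, ?_, ?_, ?_, ?_, ?_⟩
  · rw [hR, natDegree_mul (F_monic n).ne_zero hRne, F_natDegree] at hnat
    omega
  · intro m
    rw [← hPn m, hR, eval_mul]
  · intro m
    have h1 := hPsym m
    rw [hR, eval_mul, eval_mul, F_symm] at h1
    have h2 := (F_pos n m (by positivity)).ne'
    have h3 : ((-1 : ℚ) ^ n) * (-1) ^ n = 1 := by
      rw [← mul_pow]; simp
    apply mul_left_cancel₀ h2
    linear_combination ((-1 : ℚ) ^ n) * h1 -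
      (eval (m : ℚ) (F n) * eval (-((n : ℚ) + 1) - m) R) * h3
  · intro m
    have h1 := hPn m
    rw [hR, eval_mul] at h1
    have h2 := F_pos n m (by positivity)
    have h3 : (0 : ℚ) ≤ H m := by exact_mod_cast hpos m
    rw [← h1] at h3
    exact nonneg_of_mul_nonneg_right h3 h2
  · rw [hR, eval_mul] at hP0
    exact hP0

/-- Lower bound for the second factor, symmetric case. -/
theorem quad (T : ℚ[X]) (hT : T.natDegree ≤ 2) (r : ℚ) (hr : 0 < r)
    (hs : ∀ n : ℕ, 1 < n → T.eval (-r - n) = T.eval (n : ℚ)) (h2 : 0 ≤ T.eval ((2 : ℕ) : ℚ))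
    (h0 : T.eval 0 < 0) (x : ℚ) (hx : 2 ≤ x) :
    -T.eval 0 * ((x - 2) * (x + r + 2)) ≤ 2 * (r + 2) * T.eval x := by
  have hev : ∀ x : ℚ, T.eval x = T.coeff 0 + T.coeff 1 * x + T.coeff 2 * x ^ 2 := by
    intro x
    rw [Polynomial.eval_eq_sum_range' (Nat.lt_succ_of_le hT)]
    simp [Finset.sum_range_succ]
  generalize T.coeff 0 = t0 at hev
  generalize T.coeff 1 = t1 at hev
  generalize T.coeff 2 = t2 at hev
  have s2 := hs 2 (by norm_num)
  have s3 := hs 3 (by norm_num)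
  simp only [hev] at s2 s3 h2 h0 ⊢
  push_cast at s2 s3 h2
  have h1 : t1 = r * t2 := by linear_combination (-1 / 2) * (s3 - s2)
  subst h1
  have h4 : 0 ≤ t0 + 2 * (r + 2) * t2 := by linarith
  have h5 : 0 ≤ x * (x + r) := mul_nonneg (by linarith) (by linarith)
  have h6 := mul_nonneg h4 h5
  linarith [h6, show 2 * (r + 2) * (t0 + r * t2 * x + t2 * x ^ 2) -
    -(t0 + r * t2 * 0 + t2 * 0 ^ 2) * ((x - 2) * (x + r + 2)) =
    (t0 + 2 * (r + 2) * t2) * (x * (x + r)) by ring]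

/-- Lower bound for the second factor, antisymmetric case. -/
theorem cub (T : ℚ[X]) (hT : T.natDegree ≤ 3) (r : ℚ) (hr : 0 < r)
    (hs : ∀ n : ℕ, 1 < n → T.eval (-r - n) = -T.eval (n : ℚ)) (h2 : 0 ≤ T.eval ((2 : ℕ) : ℚ))
    (h0 : T.eval 0 < 0) (x : ℚ) (hx : 2 ≤ x) :
    -T.eval 0 * ((x - 2) * (x + r + 2) * (2 * x + r)) ≤ 2 * r * (r + 2) * T.eval x := by
  have hev : ∀ x : ℚ, T.eval x = T.coeff 0 + T.coeff 1 * x + T.coeff 2 * x ^ 2 +
      T.coeff 3 * x ^ 3 := by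
    intro x
    rw [Polynomial.eval_eq_sum_range' (Nat.lt_succ_of_le hT)]
    simp [Finset.sum_range_succ]
  generalize T.coeff 0 = t0 at hev
  generalize T.coeff 1 = t1 at hev
  generalize T.coeff 2 = t2 at hev
  generalize T.coeff 3 = t3 at hev
  have s2 := hs 2 (by norm_num)
  have s3 := hs 3 (by norm_num)
  have s4 := hs 4 (by norm_num)
  simp only [hev] at s2 s3 s4 h2 h0 ⊢
  push_cast at s2 s3 s4 h2
  have e2 : t2 = 3 / 2 * r * t3 := by linear_combination (1 / 4) * (s4 - 2 * s3 + s2)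
  subst e2
  have e0 : 2 * t0 = r * t1 - r ^ 3 * t3 / 2 := by linear_combination s2
  -- the value at two
  have h4 : 0 ≤ (r + 4) * (t0 + r * (r + 2) * t3) := by
    have : (r + 4) * (t0 + r * (r + 2) * t3) =
        r * (t0 + t1 * 2 + 3 / 2 * r * t3 * 2 ^ 2 + t3 * 2 ^ 3) := by
      linear_combination 2 * e0
    rw [this]
    exact mul_nonneg hr.le h2
  have h4' : 0 ≤ t0 + r * (r + 2) * t3 := nonneg_of_mul_nonneg_right h4 (by linarith)
  have h5 : 0 ≤ x * (x + r) * (2 * x + r) :=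
    mul_nonneg (mul_nonneg (by linarith) (by linarith)) (by linarith)
  have h6 := mul_nonneg h4' h5
  have h7 : 2 * r * (r + 2) * (t0 + t1 * x + 3 / 2 * r * t3 * x ^ 2 + t3 * x ^ 3) -
      -(t0 + t1 * 0 + 3 / 2 * r * t3 * 0 ^ 2 + t3 * 0 ^ 3) *
        ((x - 2) * (x + r + 2) * (2 * x + r)) =
      (t0 + r * (r + 2) * t3) * (x * (x + r) * (2 * x + r)) := by
    linear_combination (-2 * (r + 2) * x) * e0
  linarith

/-- The numerical part of the criterion in coindex four and five. -/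
theorem num3 {d n j : ℕ} {H : ℤ → ℤ} (hj : j ≤ 1) (hd : d = n + 5 + j)
    (hneg : ∀ m, m < 0 → H m = 0) (h0 : H 0 = 1)
    (hpos : ∀ m, 0 ≤ H m) (hs : Sym d (-((n : ℤ) + 1)) H) (P : ℚ[X])
    (hP : ∃ N : ℤ, ∀ m : ℤ, N ≤ m → (H m : ℚ) = P.eval (m : ℚ)) (h1 : H 1 = 0) (m : ℕ)
    (hm : 2 ≤ m) :
    ((m + n).choose n : ℚ) * (((m : ℚ) - 1) * (m - 2) * (m + (n + 1) + 1) * (m + (n + 1) + 2) *
      (2 * m + (n + 1)) ^ j) ≤
      2 * (((n : ℚ) + 1) + 1) * (((n : ℚ) + 1) + 2) * ((n : ℚ) + 1) ^ j * H m := by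
  obtain ⟨R, hdeg, hH, hsym, hRn, hR0⟩ := num_R' hneg h0 hpos hs P hP
  have hr : (0 : ℚ) < (n : ℚ) + 1 := by positivity
  have hF0 := F_pos n 0 le_rfl
  have hR0pos : 0 < R.eval 0 := by
    by_contra h
    rw [not_lt] at h
    nlinarith [mul_nonneg_of_nonpos_of_nonpos (neg_nonpos.mpr hF0.le) h]
  have hε : (-(-1) ^ d * (-1) ^ n : ℚ) = (-1) ^ j := by
    have h3 : ((-1 : ℚ) ^ n) * (-1) ^ n = 1 := by
      rw [← mul_pow]; simp
    rw [hd, pow_add, pow_add]
    linear_combination ((-1) ^ j) * h3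
  rw [hε] at hsym
  have hR1 : R.eval ((1 : ℕ) : ℚ) = 0 := by
    have h2 := hH 1
    rw [Nat.cast_one, h1, Int.cast_zero] at h2
    exact (mul_eq_zero.mp h2.symm).resolve_left (F_pos n _ (by positivity)).ne'
  obtain ⟨T, hT⟩ := G_dvd hr R {1} fun i hi => by
    rw [Finset.mem_singleton.mp hi]
    exact ⟨hR1, by rw [hsym 1, hR1, mul_zero]⟩
  have hG : ∀ x : ℚ, (G ((n : ℚ) + 1) {1}).eval x = (x - 1) * (x + (n + 1) + 1) := by
    intro x
    rw [G_eval]
    simp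
  have hRne : R ≠ 0 := by
    rintro rfl
    simp at hR0
  have hTne : T ≠ 0 := by
    rintro rfl
    exact hRne (by rw [hT, mul_zero])
  have hTdeg : T.natDegree ≤ 2 + j := by
    rw [hT, natDegree_mul (G_monic _ _).ne_zero hTne, G_natDegree, Finset.card_singleton] at hdeg
    omega
  have hGpos : ∀ l : ℕ, 1 < l → 0 < (G ((n : ℚ) + 1) {1}).eval (l : ℚ) := fun l hl =>
    G_pos hr {1} l fun i hi => by rw [Finset.mem_singleton.mp hi]; exact hl
  have hTsym : ∀ l : ℕ, 1 < l → T.eval (-((n : ℚ) + 1) - l) = (-1) ^ j * T.eval (l : ℚ) := by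
    intro l hl
    have h2 := hsym l
    rw [hT, eval_mul, eval_mul, G_symm] at h2
    apply mul_left_cancel₀ (hGpos l hl).ne'
    linear_combination h2
  have hT2 : 0 ≤ T.eval ((2 : ℕ) : ℚ) := by
    have h2 := hRn 2
    rw [hT, eval_mul] at h2
    exact nonneg_of_mul_nonneg_right h2 (hGpos 2 (by norm_num))
  have hT0 : R.eval 0 = -((n : ℚ) + 1 + 1) * T.eval 0 := by
    rw [hT, eval_mul, hG]
    ring
  have hT0neg : T.eval 0 < 0 := by
    by_contra h
    rw [not_lt] at h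
    rw [hT0] at hR0pos
    nlinarith [mul_nonneg (show (0 : ℚ) ≤ (n : ℚ) + 1 + 1 by positivity) h]
  have hm' : (2 : ℚ) ≤ m := by exact_mod_cast hm
  -- the lower bound for `T m`
  have key : -T.eval 0 * (((m : ℚ) - 2) * (m + (n + 1) + 2) * (2 * m + (n + 1)) ^ j) ≤
      2 * ((n : ℚ) + 1) ^ j * ((n : ℚ) + 1 + 2) * T.eval (m : ℚ) := by
    interval_cases j
    · have h3 := quad T hTdeg ((n : ℚ) + 1) hr (fun l hl => by rw [hTsym l hl]; ring) hT2 hT0neg
        m hm'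
      simpa using h3
    · have h3 := cub T hTdeg ((n : ℚ) + 1) hr (fun l hl => by rw [hTsym l hl]; ring) hT2 hT0neg
        m hm'
      simpa using h3
  have hHm : (H m : ℚ) = ((m + n).choose n : ℚ) * (F n).eval 0 *
      (((m : ℚ) - 1) * (m + (n + 1) + 1)) * T.eval (m : ℚ) := by
    rw [hH, F_choose, hT, eval_mul, hG]
    ring
  have hc : (0 : ℚ) ≤ ((m + n).choose n : ℚ) * (F n).eval 0 *
      (((m : ℚ) - 1) * (m + (n + 1) + 1)) * ((n : ℚ) + 1 + 1) := by
    have h3 : (0 : ℚ) ≤ (m : ℚ) - 1 := by linarith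
    positivity
  have h5 := mul_le_mul_of_nonneg_left key hc
  have hone : (F n).eval 0 * (-((n : ℚ) + 1 + 1) * T.eval 0) = 1 := by
    rw [← hT0]
    exact hR0
  calc _ = ((m + n).choose n : ℚ) * (((m : ℚ) - 1) * (m - 2) * (m + (n + 1) + 1) *
        (m + (n + 1) + 2) * (2 * m + (n + 1)) ^ j) *
        ((F n).eval 0 * (-((n : ℚ) + 1 + 1) * T.eval 0)) := by rw [hone, mul_one]
    _ = ((m + n).choose n : ℚ) * (F n).eval 0 *
      (((m : ℚ) - 1) * (m + (n + 1) + 1)) * ((n : ℚ) + 1 + 1) *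
      (-T.eval 0 * (((m : ℚ) - 2) * (m + (n + 1) + 2) * (2 * m + (n + 1)) ^ j)) := by ring
    _ ≤ _ := h5
    _ = _ := by rw [hHm]; ring

end Pool.Agent.U808.CG
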